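import Pool.Agent.H64.G.T9f66d723.W5h27.MO.Nl

/-! # Supports at all base points -/

set_option autoImplicit false

open Set Filter Topology Matrix
open scoped ComplexConjugate

namespace Pool.Agent.W5h27.MO

variable {W : M2 → ℝ}

theorem Seg.mul_right (hW : Seg W) (B : M2) : Seg (fun F => W (F * B)) := by
  intro F H hH t h0 h1
  have := hW (F * B) (H * B) (by rw [det_mul, hH, zero_mul]) t h0 h1
  rwa [← Matrix.smul_mul, ← Matrix.add_mul, ← Matrix.add_mul] at this

theorem SegP.mul_right (hW : SegP W) {B : M2} (hB : 0 < B.det) : SegP (fun F => W (F * B)) := by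
  intro F H hH hF hFH t h0 h1
  have := hW (F * B) (H * B) (by rw [det_mul, hH, zero_mul]) (by rw [det_mul]; positivity)
    (by rw [← Matrix.add_mul, det_mul]; positivity) t h0 h1
  rwa [← Matrix.smul_mul, ← Matrix.add_mul, ← Matrix.add_mul] at this

theorem Cf2.mul_right (hf : Cf2 W) (B : M2) : Cf2 (fun F => W (F * B)) := by
  intro c F hc
  have := hf c (F * B) hc
  rwa [← Matrix.mul_assoc] at this

theorem Cf2P.mul_right (hf : Cf2P W) {B : M2} (hB : 0 < B.det) : Cf2P (fun F => W (F * B)) := by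
  intro c F hc hF
  have := hf c (F * B) hc (by rw [det_mul]; positivity)
  rwa [← Matrix.mul_assoc] at this

theorem Cf0P.mul_right (hf : Cf0P W) {B : M2} (hB : 0 < B.det) : Cf0P (fun F => W (F * B)) := by
  intro c F hc hF
  have := hf c (F * B) hc (by rw [det_mul]; positivity)
  rwa [← Matrix.mul_assoc] at this

theorem qf_inv (F B : M2) (u : Fin 2 → ℝ) : qf (F * B) u = qf F (B *ᵥ u) := by
  unfold qf
  rw [Matrix.mulVec_mulVec]

theorem qf_smul (F : M2) (c : ℝ) (u : Fin 2 → ℝ) : qf F (c • u) = c ^ 2 * qf F u := by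
  unfold qf
  rw [Matrix.mulVec_smul, dotProduct_smul, smul_dotProduct]
  simp only [smul_eq_mul]
  ring

theorem inv2 (hW : Seg W) (hc : Continuous W) (hf : Cf2 W) {F₀ : M2} (h0 : F₀.det ≠ 0) :
    ∃ (α : ℝ) (u : Fin 2 → ℝ), W F₀ = α * F₀.det + qf F₀ u ∧
      ∀ F : M2, α * F.det + qf F u ≤ W F := by
  have hu : IsUnit F₀.det := isUnit_iff_ne_zero.2 h0
  obtain ⟨α, u, h1, h2⟩ := one2 (hW.mul_right F₀) (by fun_prop) (hf.mul_right F₀)
  refine ⟨α * F₀.det⁻¹, F₀⁻¹ *ᵥ u, ?_, fun F => ?_⟩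
  · rw [one_mul] at h1
    rw [h1, ← qf_inv, Matrix.mul_nonsing_inv _ hu, det_one]
    field_simp
  · have := h2 (F * F₀⁻¹)
    rw [Matrix.mul_assoc, Matrix.nonsing_inv_mul _ hu, mul_one, qf_inv, det_mul, det_nonsing_inv,
      Ring.inverse_eq_inv'] at this
    refine le_trans (le_of_eq ?_) this
    ring

theorem inv2P (hW : SegP W) (hf : Cf2P W) {F₀ : M2} (h0 : 0 < F₀.det) :
    NlAt W (Ioi 0) F₀ := by
  have hu : IsUnit F₀.det := isUnit_iff_ne_zero.2 h0.ne'
  obtain ⟨α, u, h1, h2⟩ := one2P (hW.mul_right h0) (hf.mul_right h0)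
  refine nl_of_quad (α := α * F₀.det⁻¹) (u := F₀⁻¹ *ᵥ u) ?_ fun F hF => ?_
  · rw [one_mul] at h1
    rw [h1, ← qf_inv, Matrix.mul_nonsing_inv _ hu, det_one]
    field_simp
  · have hF' : 0 < F.det := hF
    have hd : 0 < (F * F₀⁻¹).det := by
      rw [det_mul, det_nonsing_inv, Ring.inverse_eq_inv']
      positivity
    have := h2 (F * F₀⁻¹) hd
    rw [Matrix.mul_assoc, Matrix.nonsing_inv_mul _ hu, mul_one, qf_inv, det_mul, det_nonsing_inv,
      Ring.inverse_eq_inv'] at this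
    refine le_trans (le_of_eq ?_) this
    ring

theorem inv0P (hW : SegP W) (hf : Cf0P W) {F₀ : M2} (h0 : 0 < F₀.det) :
    NlAt W (Ioi 0) F₀ := by
  have hu : IsUnit F₀.det := isUnit_iff_ne_zero.2 h0.ne'
  obtain ⟨α, u, h1, h2⟩ := one0P (hW.mul_right h0) (hf.mul_right h0)
  refine nl_of_quot h0 (α := α) (u := Real.sqrt F₀.det • (F₀⁻¹ *ᵥ u)) ?_ fun F hF => ?_
  · rw [one_mul] at h1
    rw [h1, qf_smul, ← qf_inv, Matrix.mul_nonsing_inv _ hu, det_one, Real.sq_sqrt h0.le]
    field_simp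
  · have hd : 0 < (F * F₀⁻¹).det := by
      rw [det_mul, det_nonsing_inv, Ring.inverse_eq_inv']
      positivity
    have := h2 (F * F₀⁻¹) hd
    rw [Matrix.mul_assoc, Matrix.nonsing_inv_mul _ hu, mul_one, qf_inv, det_mul, det_nonsing_inv,
      Ring.inverse_eq_inv'] at this
    refine le_trans (le_of_eq ?_) this
    rw [qf_smul, Real.sq_sqrt h0.le]
    field_simp

/-! ### singular base points -/

/-- the supporting quadratic functions -/
def KK (W : M2 → ℝ) : Set (ℝ × (Fin 2 → ℝ)) :=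
  {k | ∀ F : M2, k.1 * F.det + qf F k.2 ≤ W F}

theorem continuous_qf2 : Continuous (fun p : M2 × (Fin 2 → ℝ) => qf p.1 p.2) := by
  unfold qf
  fun_prop

theorem KK_closed : IsClosed (KK W) := by
  have e : KK W = ⋂ F : M2, {k : ℝ × (Fin 2 → ℝ) | k.1 * F.det + qf F k.2 ≤ W F} := by
    ext k; simp [KK]
  rw [e]
  refine isClosed_iInter fun F => isClosed_le ?_ continuous_const
  have : Continuous (fun u : Fin 2 → ℝ => qf F u) := by
    unfold qf; fun_prop
  fun_prop

theorem KK_compact : IsCompact (KK W) := by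
  set G : M2 := !![1, 0; 0, -1] with hG
  set M : ℝ := |W 1| + |W G| + 1 with hM
  have hsub : KK W ⊆ Icc (-M) M ×ˢ Icc (fun _ => -M) (fun _ => M) := by
    intro k hk
    have h1 := hk 1
    have h2 := hk G
    have q1 : qf 1 k.2 = k.2 0 ^ 2 + k.2 1 ^ 2 := by
      unfold qf
      simp only [one_mulVec, dotProduct, Fin.sum_univ_two]
      ring
    have q2 : qf G k.2 = k.2 0 ^ 2 + k.2 1 ^ 2 := by
      unfold qf
      simp only [hG, dotProduct, Matrix.mulVec, Fin.sum_univ_two]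
      simp
      ring
    have d2 : G.det = -1 := by rw [hG]; simp [det_fin_two]
    rw [q1, det_one] at h1
    rw [q2, d2] at h2
    have a1 := le_abs_self (W 1)
    have a2 := le_abs_self (W G)
    have a3 := abs_nonneg (W 1)
    have a4 := abs_nonneg (W G)
    have b0 := sq_nonneg (k.2 0)
    have b1 := sq_nonneg (k.2 1)
    have hsum : k.2 0 ^ 2 + k.2 1 ^ 2 ≤ M := by linarith
    have hcoord : ∀ x : ℝ, x ^ 2 ≤ M → -M ≤ x ∧ x ≤ M := by
      intro x hx
      have hM1 : 1 ≤ M := by linarith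
      constructor <;> nlinarith
    refine ⟨⟨by linarith, by linarith⟩, ?_, ?_⟩
    · intro i
      fin_cases i
      · exact (hcoord (k.2 0) (by linarith)).1
      · exact (hcoord (k.2 1) (by linarith)).1
    · intro i
      fin_cases i
      · exact (hcoord (k.2 0) (by linarith)).2
      · exact (hcoord (k.2 1) (by linarith)).2
  exact (isCompact_Icc.prod isCompact_Icc).of_isClosed_subset KK_closed hsub

theorem exists_seq (F₀ : M2) (h0 : F₀.det = 0) : ∃ s : ℕ → M2, (∀ n, (s n).det ≠ 0) ∧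
    Tendsto s atTop (𝓝 F₀) := by
  set T := F₀ 0 0 + F₀ 1 1 with hT
  have hdet : ∀ t : ℝ, (F₀ + t • (1 : M2)).det = t * (T + t) := by
    intro t
    rw [det_fin_two] at h0 ⊢
    simp only [Matrix.add_apply, Matrix.smul_apply, Matrix.one_apply, smul_eq_mul]
    simp
    linear_combination h0
  obtain ⟨σ, hσ, hσT⟩ : ∃ σ : ℝ, (σ = 1 ∨ σ = -1) ∧ 0 ≤ σ * T := by
    rcases le_total 0 T with h | h
    · exact ⟨1, Or.inl rfl, by linarith⟩
    · exact ⟨-1, Or.inr rfl, by linarith⟩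
  have hσ2 : σ * σ = 1 := by rcases hσ with h | h <;> rw [h] <;> norm_num
  refine ⟨fun n => F₀ + (σ * (1 / ((n : ℝ) + 1))) • (1 : M2), fun n => ?_, ?_⟩
  · rw [hdet]
    have hn : (0 : ℝ) < 1 / ((n : ℝ) + 1) := by positivity
    set t := 1 / ((n : ℝ) + 1) with ht
    have e : σ * t * (T + σ * t) = t * (σ * T) + t ^ 2 := by
      linear_combination t ^ 2 * hσ2
    rw [e]
    have : 0 ≤ t * (σ * T) := mul_nonneg hn.le hσT
    positivity
  · have h1 : Tendsto (fun n : ℕ => (1 : ℝ) / ((n : ℝ) + 1)) atTop (𝓝 0) :=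
      tendsto_one_div_add_atTop_nhds_zero_nat
    have h2 : Continuous (fun t : ℝ => F₀ + (σ * t) • (1 : M2)) := by fun_prop
    have h3 := (h2.tendsto 0).comp h1
    simpa [Function.comp_def] using h3

theorem all2 (hW : Seg W) (hc : Continuous W) (hf : Cf2 W) (F₀ : M2) :
    ∃ (α : ℝ) (u : Fin 2 → ℝ), W F₀ = α * F₀.det + qf F₀ u ∧
      ∀ F : M2, α * F.det + qf F u ≤ W F := by
  by_cases h0 : F₀.det = 0
  · obtain ⟨s, hs, hs2⟩ := exists_seq F₀ h0
    choose α u h1 h2 using fun n => inv2 hW hc hf (hs n)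
    obtain ⟨k, hk, φ, hφ, hlim⟩ := (KK_compact (W := W)).tendsto_subseq
      (x := fun n => (α n, u n)) (fun n => h2 n)
    refine ⟨k.1, k.2, ?_, hk⟩
    have hs3 : Tendsto (fun n => s (φ n)) atTop (𝓝 F₀) := hs2.comp hφ.tendsto_atTop
    have g1 : Tendsto (fun n => W (s (φ n))) atTop (𝓝 (W F₀)) := (hc.tendsto F₀).comp hs3
    have hcj : Continuous (fun p : M2 × (ℝ × (Fin 2 → ℝ)) => p.2.1 * p.1.det + qf p.1 p.2.2) := by
      have : Continuous (fun p : M2 × (ℝ × (Fin 2 → ℝ)) => qf p.1 p.2.2) :=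
        continuous_qf2.comp (by fun_prop : Continuous fun p : M2 × (ℝ × (Fin 2 → ℝ)) => (p.1, p.2.2))
      fun_prop
    have g2 : Tendsto (fun n => α (φ n) * (s (φ n)).det + qf (s (φ n)) (u (φ n))) atTop
        (𝓝 (k.1 * F₀.det + qf F₀ k.2)) := by
      have := (hcj.tendsto (F₀, k)).comp (hs3.prodMk_nhds hlim)
      simpa [Function.comp_def] using this
    have e : (fun n => W (s (φ n))) = fun n => α (φ n) * (s (φ n)).det + qf (s (φ n)) (u (φ n)) := by
      funext n
      exact h1 (φ n)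
    rw [e] at g1
    exact tendsto_nhds_unique g1 g2
  · exact inv2 hW hc hf h0

end Pool.Agent.W5h27.MO
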