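import Pool.Agent.H64.G.T9f66d723.W5h27.MO.Core

/-! # The supporting inequalities -/

set_option autoImplicit false

open Set Filter Topology
open scoped ComplexConjugate

namespace Pool.Agent.W5h27.MO

variable {V : ℂ → ℂ → ℝ} {S : ℂ → Set ℂ}

theorem sq_norm_re (z : ℂ) : ‖z‖ ^ 2 = z.re ^ 2 + z.im ^ 2 := by
  rw [← Complex.normSq_eq_norm_sq, Complex.normSq_apply]; ring

theorem norm_sq_mul_div (g x c : ℂ) (hc : c ≠ 0) :
    ‖c‖ ^ 2 * (g * (x / c)).re = (g * x * conj c).re := by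
  have h6 : (g * x * conj c) = ((‖c‖ ^ 2 : ℝ) : ℂ) * (g * (x / c)) := by
    have h7 : ((‖c‖ ^ 2 : ℝ) : ℂ) = c * conj c := by
      rw [Complex.mul_conj, Complex.normSq_eq_norm_sq]
    rw [h7]
    field_simp
  rw [h6, Complex.re_ofReal_mul]

/-- `|c|² - 2 Re(κ b conj c) = |a|² - |b|²` for `c = a + κ b` -/
theorem det_id (a b κ : ℂ) (hκ : ‖κ‖ = 1) :
    ‖a + κ * b‖ ^ 2 - 2 * (κ * b * conj (a + κ * b)).re = ‖a‖ ^ 2 - ‖b‖ ^ 2 := by
  have h1 : κ.re ^ 2 + κ.im ^ 2 = 1 := by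
    rw [← sq_norm_re, hκ]; norm_num
  simp only [sq_norm_re, map_add, map_mul, Complex.add_re, Complex.add_im, Complex.mul_re,
    Complex.mul_im, Complex.conj_re, Complex.conj_im]
  linear_combination (-(b.re ^ 2 + b.im ^ 2)) * h1

theorem bound2 (hS : ∀ κ, IsOpen (S κ)) (hS0 : ∀ κ, (0 : ℂ) ∈ S κ)
    (hconv : ∀ κ : ℂ, ‖κ‖ = 1 → ConvexOn ℝ (S κ) (fun β => V (1 - κ * β) β))
    (hhom : ∀ c κ β : ℂ, c ≠ 0 → ‖κ‖ = 1 → β ∈ S κ →
      V (c * (1 - κ * β)) (c * β) = ‖c‖ ^ 2 * V (1 - κ * β) β) :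
    ∃ g : ℂ, ∀ κ a b : ℂ, ‖κ‖ = 1 → a + κ * b ≠ 0 → b / (a + κ * b) ∈ S κ →
      V 1 0 * (‖a‖ ^ 2 - ‖b‖ ^ 2) + (g * b * conj (a + κ * b)).re ≤ V a b := by
  have h1 : ‖(1 : ℂ)‖ = 1 := norm_one
  obtain ⟨g₀, hg₀⟩ := subgrad (hS 1) (hS0 1) (hconv 1 h1)
  simp only [mul_zero, sub_zero] at hg₀
  set w := V 1 0 with hw
  refine ⟨g₀ + 2 * w, fun κ a b hκ hc hb => ?_⟩
  have h2 := transfer2 (f₁ := fun β => V (1 - 1 * β) β) (f₂ := fun β => V (1 - κ * β) β)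
    (ν := 1 - κ) (hS 1) (hS0 1) (hS0 κ) (hconv κ hκ) (by simp) (by simpa using hg₀) (by
      intro β hβ hβ'
      have h3 := hhom _ 1 _ hβ h1 hβ'
      rw [← h3]
      have e1 : (1 + (1 - κ) * β) * (β / (1 + (1 - κ) * β)) = β := mul_div_cancel₀ _ hβ
      rw [mul_sub, mul_one, one_mul, e1]
      congr 1
      ring) hb
  simp only [mul_zero, sub_zero] at h2
  rw [← hw] at h2
  have h4 := hhom (a + κ * b) κ _ hc hκ hb
  have e1 : (a + κ * b) * (b / (a + κ * b)) = b := mul_div_cancel₀ _ hc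
  have e2 : (a + κ * b) * (1 - κ * (b / (a + κ * b))) = a := by
    rw [mul_sub, mul_one, mul_left_comm, e1]; ring
  rw [e1, e2] at h4
  rw [h4]
  have h5 := mul_le_mul_of_nonneg_left h2 (sq_nonneg ‖a + κ * b‖)
  refine le_trans (le_of_eq ?_) h5
  rw [mul_add, norm_sq_mul_div _ _ _ hc, ← det_id a b κ hκ]
  have e3 : (g₀ + 2 * ↑w * (1 - κ)) * b * conj (a + κ * b)
      = (g₀ + 2 * ↑w) * b * conj (a + κ * b) - ((2 * w : ℝ) : ℂ) * (κ * b * conj (a + κ * b)) := by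
    push_cast
    ring
  rw [e3, Complex.sub_re, Complex.re_ofReal_mul]
  ring

theorem bound0 (hS : ∀ κ, IsOpen (S κ)) (hS0 : ∀ κ, (0 : ℂ) ∈ S κ)
    (hconv : ∀ κ : ℂ, ‖κ‖ = 1 → ConvexOn ℝ (S κ) (fun β => V (1 - κ * β) β))
    (hhom : ∀ c κ β : ℂ, c ≠ 0 → ‖κ‖ = 1 → β ∈ S κ →
      V (c * (1 - κ * β)) (c * β) = V (1 - κ * β) β) :
    ∃ g : ℂ, ∀ κ a b : ℂ, ‖κ‖ = 1 → a + κ * b ≠ 0 → b / (a + κ * b) ∈ S κ →
      V 1 0 + (g * (b / (a + κ * b))).re ≤ V a b := by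
  have h1 : ‖(1 : ℂ)‖ = 1 := norm_one
  obtain ⟨g₀, hg₀⟩ := subgrad (hS 1) (hS0 1) (hconv 1 h1)
  simp only [mul_zero, sub_zero] at hg₀
  set w := V 1 0 with hw
  refine ⟨g₀, fun κ a b hκ hc hb => ?_⟩
  have h2 := transfer0 (f₁ := fun β => V (1 - 1 * β) β) (f₂ := fun β => V (1 - κ * β) β)
    (ν := 1 - κ) (hS 1) (hS0 1) (hS0 κ) (hconv κ hκ) (by simp) (by simpa using hg₀) (by
      intro β hβ hβ'
      have h3 := hhom _ 1 _ hβ h1 hβ'
      rw [← h3]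
      have e1 : (1 + (1 - κ) * β) * (β / (1 + (1 - κ) * β)) = β := mul_div_cancel₀ _ hβ
      rw [mul_sub, mul_one, one_mul, e1]
      congr 1
      ring) hb
  simp only [mul_zero, sub_zero] at h2
  rw [← hw] at h2
  have h4 := hhom (a + κ * b) κ _ hc hκ hb
  have e1 : (a + κ * b) * (b / (a + κ * b)) = b := mul_div_cancel₀ _ hc
  have e2 : (a + κ * b) * (1 - κ * (b / (a + κ * b))) = a := by
    rw [mul_sub, mul_one, mul_left_comm, e1]; ring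
  rw [e1, e2] at h4
  rw [h4]
  exact h2

/-- square roots of complex numbers -/
theorem exists_sqrt (g : ℂ) : ∃ v : ℂ, v ^ 2 = g := by
  obtain ⟨v, hv⟩ := IsAlgClosed.exists_pow_nat_eq g (n := 2) (by norm_num)
  exact ⟨v, hv⟩

/-- a unit number `κ` with `g conj κ = |g|` -/
theorem exists_phase (g : ℂ) : ∃ κ : ℂ, ‖κ‖ = 1 ∧ g * conj κ = ‖g‖ := by
  by_cases hg : g = 0
  · exact ⟨1, by simp, by simp [hg]⟩
  · have hn : ‖g‖ ≠ 0 := norm_ne_zero_iff.2 hg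
    refine ⟨g / ‖g‖, by simp [hn], ?_⟩
    rw [map_div₀, Complex.conj_ofReal, mul_div_assoc', Complex.mul_conj, Complex.normSq_eq_norm_sq]
    have : (‖g‖ : ℂ) ≠ 0 := by exact_mod_cast hn
    field_simp
    push_cast
    ring

/-- the quadratic form -/
theorem quad_id (g v a b : ℂ) (hv : v ^ 2 = g / 2) :
    ‖a * conj v + b * v‖ ^ 2 = ‖g‖ / 2 * (‖a‖ ^ 2 + ‖b‖ ^ 2) + (g * b * conj a).re := by
  have h1 : ‖v‖ ^ 2 = ‖g‖ / 2 := by
    have := congrArg norm hv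
    rw [norm_pow, norm_div] at this
    simpa using this
  have e1 : g = 2 * v ^ 2 := by rw [hv]; ring
  rw [← h1, e1]
  simp only [sq_norm_re]
  simp only [pow_two, Complex.add_re, Complex.add_im, Complex.mul_re,
    Complex.mul_im, Complex.conj_re, Complex.conj_im, Complex.re_ofNat, Complex.im_ofNat]
  ring

end Pool.Agent.W5h27.MO
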