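import Pool.Agent.H64.G.T9f66d723.W5h27.MO.Mor

/-! # General complex structures; the right versions -/

set_option autoImplicit false

open Set Filter Topology Matrix
open scoped ComplexConjugate

namespace Pool.Agent.W5h27.MO

variable {W : M2 → ℝ}

theorem seg_of_rank (h : ∀ F H : M2, H.rank = 1 → ∀ t : ℝ, 0 ≤ t → t ≤ 1 →
    W ((1 - t) • F + t • (F + H)) ≤ (1 - t) * W F + t * W (F + H)) : Seg W := by
  intro F H hH t h0 h1
  exact Pool.Agent.Helper188.Morrey.RankOneConvex.seg (W := W) h F H hH h0 h1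

theorem segP_of_rank (h : ∀ F H : M2, H.rank = 1 → 0 < F.det → 0 < (F + H).det → ∀ t : ℝ,
    0 ≤ t → t ≤ 1 → W ((1 - t) • F + t • (F + H)) ≤ (1 - t) * W F + t * W (F + H)) : SegP W := by
  intro F H hH hF hFH t h0 h1
  by_cases hH0 : H = 0
  · subst hH0
    simp only [smul_zero, add_zero]
    linarith
  · have h := h F H (Pool.Agent.Helper188.Morrey.rank_eq_one_of_det hH0 hH) hF hFH t h0 h1
    have e : (1 - t) • F + t • (F + H) = F + t • H := by
      rw [smul_add, sub_smul, one_smul]; abel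
    rwa [e] at h

/-- a complex structure is conjugate, by a matrix with positive determinant, to plus or minus the
standard one -/
theorem exists_conj {J : M2} (hJ : J * J = -1) : ∃ (S : M2) (σ : ℝ), 0 < S.det ∧
    (σ = 1 ∨ σ = -1) ∧ ∀ c : ℂ, S * mt c 0 = c.re • S + (σ * c.im) • (J * S) := by
  have h00 := congrFun (congrFun hJ 0) 0
  have h01 := congrFun (congrFun hJ 0) 1
  have h10 := congrFun (congrFun hJ 1) 0
  have h11 := congrFun (congrFun hJ 1) 1
  simp only [Matrix.mul_apply, Fin.sum_univ_two, Matrix.neg_apply, Matrix.one_apply] at h00 h01 h10 h11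
  simp at h00 h01 h10 h11
  have hne : J 1 0 ≠ 0 := by
    intro h
    rw [h] at h00
    nlinarith [sq_nonneg (J 0 0)]
  have htr : J 0 0 + J 1 1 = 0 := by
    have : J 1 0 * (J 0 0 + J 1 1) = 0 := by linear_combination h10
    exact (mul_eq_zero.1 this).resolve_left hne
  have key : ∀ σ : ℝ, σ * σ = 1 → ∀ c : ℂ, (!![1, σ * J 0 0; 0, σ * J 1 0] : M2) * mt c 0
      = c.re • !![1, σ * J 0 0; 0, σ * J 1 0] + (σ * c.im) • (J * !![1, σ * J 0 0; 0, σ * J 1 0]) := by
    intro σ hσ c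
    ext i j
    fin_cases i <;> fin_cases j <;>
      simp [mt, Matrix.mul_apply, Fin.sum_univ_two]
    · ring
    · linear_combination (-c.im * (J 0 0 * J 0 0 + J 0 1 * J 1 0)) * hσ - c.im * h00
    · ring
    · linear_combination (-c.im * (J 1 0 * J 0 0 + J 1 1 * J 1 0)) * hσ - c.im * h10
  rcases lt_or_gt_of_ne hne with h | h
  · refine ⟨!![1, (-1) * J 0 0; 0, (-1) * J 1 0], -1, ?_, Or.inr rfl, key (-1) (by norm_num)⟩
    rw [det_fin_two_of]; linarith
  · refine ⟨!![1, 1 * J 0 0; 0, 1 * J 1 0], 1, ?_, Or.inl rfl, key 1 (by norm_num)⟩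
    rw [det_fin_two_of]; linarith

theorem Seg.mul_left (hW : Seg W) (B : M2) : Seg (fun F => W (B * F)) := by
  intro F H hH t h0 h1
  have := hW (B * F) (B * H) (by rw [det_mul, hH, mul_zero]) t h0 h1
  rwa [← Matrix.mul_smul, ← Matrix.mul_add, ← Matrix.mul_add] at this

theorem SegP.mul_left (hW : SegP W) {B : M2} (hB : 0 < B.det) : SegP (fun F => W (B * F)) := by
  intro F H hH hF hFH t h0 h1
  have := hW (B * F) (B * H) (by rw [det_mul, hH, mul_zero]) (by rw [det_mul]; positivity)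
    (by rw [← Matrix.mul_add, det_mul]; positivity) t h0 h1
  rwa [← Matrix.mul_smul, ← Matrix.mul_add, ← Matrix.mul_add] at this

/-- supports are transported by linear changes of the target -/
theorem NlAt.of_left {S : M2} (hS : 0 < S.det) {I : Set ℝ}
    (hI : ∀ F : M2, F.det ∈ I → (S⁻¹ * F).det ∈ I) {F₀ : M2}
    (h : NlAt (fun F => W (S * F)) I (S⁻¹ * F₀)) : NlAt W I F₀ := by
  have hu : IsUnit S.det := isUnit_iff_ne_zero.2 hS.ne'
  obtain ⟨A, γ, l, h1, h2⟩ := h
  have hSS : ∀ F : M2, S * (S⁻¹ * F) = F := fun F => by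
    rw [← Matrix.mul_assoc, Matrix.mul_nonsing_inv _ hu, one_mul]
  have hd : ∀ F : M2, (S⁻¹ * F).det = S.det⁻¹ * F.det := fun F => by
    rw [det_mul, det_nonsing_inv, Ring.inverse_eq_inv']
  refine ⟨A, γ * S.det⁻¹, l ∘ₗ (LinearMap.mulLeft ℝ S⁻¹), ?_, fun F hF => ?_⟩
  · simp only [hSS, hd] at h1
    rw [h1, LinearMap.comp_apply, LinearMap.mulLeft_apply]
    ring
  · have := h2 (S⁻¹ * F) (hI F hF)
    simp only [hSS, hd] at this
    rw [LinearMap.comp_apply, LinearMap.mulLeft_apply]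
    linarith

theorem NlAt.of_transpose {I : Set ℝ} {F₀ : M2} (h : NlAt (fun F => W Fᵀ) I F₀ᵀ) :
    NlAt W I F₀ := by
  obtain ⟨A, γ, l, h1, h2⟩ := h
  refine ⟨A, γ, l ∘ₗ (Matrix.transposeLinearEquiv (Fin 2) (Fin 2) ℝ ℝ).toLinearMap, ?_,
    fun F hF => ?_⟩
  · simp only [transpose_transpose, det_transpose] at h1
    rw [h1]
    rfl
  · have := h2 Fᵀ (by rwa [det_transpose])
    simp only [transpose_transpose, det_transpose] at this
    exact this

theorem left2 {J : M2} (hJ : J * J = -1) (hW : Seg W) (hc : Continuous W)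
    (hinv : ∀ (x y : ℝ) (F : M2), W (x • F + y • (J * F)) = (x ^ 2 + y ^ 2) * W F) (F₀ : M2) :
    NlAt W univ F₀ := by
  obtain ⟨S, σ, hS, hσ, hSc⟩ := exists_conj hJ
  refine NlAt.of_left hS (fun _ _ => mem_univ _) ?_
  have hcf : Cf2 (fun F => W (S * F)) := by
    intro c F _
    have e : S * (mt c 0 * F) = c.re • (S * F) + (σ * c.im) • (J * (S * F)) := by
      rw [← Matrix.mul_assoc, hSc, Matrix.add_mul, Matrix.smul_mul, Matrix.smul_mul,
        Matrix.mul_assoc]
    simp only [e]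
    rw [hinv, sq_norm_re]
    rcases hσ with h | h <;> rw [h] <;> ring
  obtain ⟨α, u, h1, h2⟩ := all2 (hW.mul_left S) (by fun_prop) hcf (S⁻¹ * F₀)
  exact nl_of_quad h1 (fun F _ => h2 F)

theorem leftP {J : M2} (hJ : J * J = -1) (hW : SegP W) {q : ℕ} (hq : q ≤ 1)
    (hinv : ∀ (x y : ℝ) (F : M2), (x ≠ 0 ∨ y ≠ 0) → 0 < F.det →
      W (x • F + y • (J * F)) = (x ^ 2 + y ^ 2) ^ q * W F) {F₀ : M2} (h0 : 0 < F₀.det) :
    NlAt W (Ioi 0) F₀ := by
  obtain ⟨S, σ, hS, hσ, hSc⟩ := exists_conj hJ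
  have hpos : ∀ F : M2, F.det ∈ Ioi (0:ℝ) → (S⁻¹ * F).det ∈ Ioi (0:ℝ) := by
    intro F hF
    have hF' : 0 < F.det := hF
    show 0 < (S⁻¹ * F).det
    rw [det_mul, det_nonsing_inv, Ring.inverse_eq_inv']
    positivity
  refine NlAt.of_left hS hpos ?_
  have hcf : ∀ (c : ℂ) (F : M2), c ≠ 0 → 0 < F.det →
      W (S * (mt c 0 * F)) = (‖c‖ ^ 2) ^ q * W (S * F) := by
    intro c F hc hF
    have e : S * (mt c 0 * F) = c.re • (S * F) + (σ * c.im) • (J * (S * F)) := by
      rw [← Matrix.mul_assoc, hSc, Matrix.add_mul, Matrix.smul_mul, Matrix.smul_mul,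
        Matrix.mul_assoc]
    have hσ0 : σ ≠ 0 := by rcases hσ with h | h <;> rw [h] <;> norm_num
    have hc' : c.re ≠ 0 ∨ σ * c.im ≠ 0 := by
      by_contra hcon
      push Not at hcon
      apply hc
      apply Complex.ext
      · exact hcon.1
      · exact (mul_eq_zero.1 hcon.2).resolve_left hσ0
    rw [e, hinv _ _ _ hc' (by rw [det_mul]; positivity), sq_norm_re]
    congr 2
    rcases hσ with h | h <;> rw [h] <;> ring
  have hF1 : 0 < (S⁻¹ * F₀).det := hpos F₀ h0
  interval_cases q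
  · refine inv0P (hW.mul_left hS) ?_ hF1
    intro c F hc hF
    have := hcf c F hc hF
    simpa using this
  · refine inv2P (hW.mul_left hS) ?_ hF1
    intro c F hc hF
    have := hcf c F hc hF
    simpa using this

theorem tr_sq {J : M2} (hJ : J * J = -1) : Jᵀ * Jᵀ = -1 := by
  rw [← Matrix.transpose_mul, hJ]
  simp

theorem Seg.tr (hW : Seg W) : Seg (fun F => W Fᵀ) := by
  intro F H hH t h0 h1
  have := hW Fᵀ Hᵀ (by rwa [det_transpose]) t h0 h1
  simpa using this

theorem SegP.tr (hW : SegP W) : SegP (fun F => W Fᵀ) := by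
  intro F H hH hF hFH t h0 h1
  have := hW Fᵀ Hᵀ (by rwa [det_transpose]) (by rwa [det_transpose])
    (by rwa [← transpose_add, det_transpose]) t h0 h1
  simpa using this

theorem right2 {J : M2} (hJ : J * J = -1) (hW : Seg W) (hc : Continuous W)
    (hinv : ∀ (x y : ℝ) (F : M2), W (x • F + y • (F * J)) = (x ^ 2 + y ^ 2) * W F) (F₀ : M2) :
    NlAt W univ F₀ := by
  refine NlAt.of_transpose (left2 (tr_sq hJ) hW.tr (by fun_prop) (fun x y F => ?_) F₀ᵀ)
  have := hinv x y Fᵀ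
  simpa [Matrix.transpose_mul] using this

theorem rightP {J : M2} (hJ : J * J = -1) (hW : SegP W) {q : ℕ} (hq : q ≤ 1)
    (hinv : ∀ (x y : ℝ) (F : M2), (x ≠ 0 ∨ y ≠ 0) → 0 < F.det →
      W (x • F + y • (F * J)) = (x ^ 2 + y ^ 2) ^ q * W F) {F₀ : M2} (h0 : 0 < F₀.det) :
    NlAt W (Ioi 0) F₀ := by
  refine NlAt.of_transpose (leftP (tr_sq hJ) hW.tr hq (fun x y F hxy hF => ?_)
    (by rwa [det_transpose]))
  have := hinv x y Fᵀ hxy (by rwa [det_transpose])
  simpa [Matrix.transpose_mul] using this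

end Pool.Agent.W5h27.MO
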