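import Pool.Agent.H64.G.T9f66d723.W5h27.MO.Sub

/-! # The supporting inequalities, in the coordinates `F z = a z + b conj z` -/

set_option autoImplicit false

open Set Filter Topology
open scoped ComplexConjugate

namespace Pool.Agent.W5h27.MO

/-- the half plane where `(1 - κ β) z + β conj z` has positive determinant -/
def Hp (κ : ℂ) : Set ℂ := {β | (κ * β).re < 1 / 2}

theorem Hp_open (κ : ℂ) : IsOpen (Hp κ) := by
  have : Continuous (fun β : ℂ => (κ * β).re) := by fun_prop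
  exact this.isOpen_preimage _ isOpen_Iio

theorem Hp_zero (κ : ℂ) : (0 : ℂ) ∈ Hp κ := by simp [Hp]

/-- the scaling factor `c' = 1 + ν β` is close to one along rays -/
theorem ev_ne (ν β : ℂ) : ∀ᶠ t : ℝ in 𝓝[>] 0, 1 + ν * (t * β) ≠ 0 := by
  have hc : Continuous (fun t : ℝ => 1 + ν * (t * β)) := by fun_prop
  have h1 := hc.tendsto 0
  simp only [Complex.ofReal_zero, zero_mul, mul_zero, add_zero] at h1
  exact (h1.mono_left nhdsWithin_le_nhds).eventually_ne one_ne_zero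

theorem ev_mem {s : Set ℂ} (hs : IsOpen s) (h0 : (0 : ℂ) ∈ s) (ν β : ℂ) :
    ∀ᶠ t : ℝ in 𝓝[>] 0, (t * β) / (1 + ν * (t * β)) ∈ s := by
  have hc : ContinuousAt (fun t : ℝ => (t * β) / (1 + ν * (t * β))) 0 := by
    refine ContinuousAt.div (by fun_prop) (by fun_prop) ?_
    simp
  have h1 : Tendsto (fun t : ℝ => (t * β) / (1 + ν * (t * β))) (𝓝 0) (𝓝 0) := by
    have := hc.tendsto
    simpa using this
  exact (h1.mono_left nhdsWithin_le_nhds).eventually (hs.mem_nhds h0)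

/-- transfer of a subgradient, degree `2` -/
theorem transfer2 {s₁ s₂ : Set ℂ} (hs₁ : IsOpen s₁) (h1 : (0 : ℂ) ∈ s₁) (h2 : (0 : ℂ) ∈ s₂)
    {f₁ f₂ : ℂ → ℝ} (hf₂ : ConvexOn ℝ s₂ f₂) {g ν : ℂ} (h00 : f₂ 0 = f₁ 0)
    (hg : ∀ z ∈ s₁, f₁ 0 + (g * z).re ≤ f₁ z)
    (hrel : ∀ β : ℂ, 1 + ν * β ≠ 0 → β / (1 + ν * β) ∈ s₁ →
      f₂ β = ‖1 + ν * β‖ ^ 2 * f₁ (β / (1 + ν * β))) {β : ℂ} (hβ : β ∈ s₂) :
    f₂ 0 + ((g + 2 * f₂ 0 * ν) * β).re ≤ f₂ β := by
  set w := f₂ 0 with hw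
  refine ray_le h2 hf₂ hβ (fun t => ((g + 2 * w * ν) * β).re
    + t * (w * ‖ν * β‖ ^ 2 + (g * β * conj (ν * β)).re)) ?_ ?_
  · have hc : Continuous (fun t : ℝ => ((g + 2 * w * ν) * β).re
      + t * (w * ‖ν * β‖ ^ 2 + (g * β * conj (ν * β)).re)) := by fun_prop
    have := (hc.tendsto 0).mono_left (nhdsWithin_le_nhds (s := Ioi 0))
    simpa using this
  · filter_upwards [ev_ne ν β, ev_mem hs₁ h1 ν β] with t ht1 ht2
    have e1 : (t • β : ℂ) = t * β := by simp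
    rw [e1, hrel _ ht1 ht2]
    have h3 := hg _ ht2
    have h4 : ‖1 + ν * (t * β)‖ ^ 2 * (f₁ 0 + (g * ((t * β) / (1 + ν * (t * β)))).re)
        ≤ ‖1 + ν * (t * β)‖ ^ 2 * f₁ ((t * β) / (1 + ν * (t * β))) :=
      mul_le_mul_of_nonneg_left h3 (by positivity)
    refine le_trans (le_of_eq ?_) h4
    rw [← h00]
    set c := 1 + ν * (t * β) with hc
    have h5 : ‖c‖ ^ 2 * (g * ((t * β) / c)).re = (g * (t * β) * conj c).re := by
      have h6 : (g * (t * β) * conj c) = ((‖c‖ ^ 2 : ℝ) : ℂ) * (g * ((t * β) / c)) := by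
        have h7 : ((‖c‖ ^ 2 : ℝ) : ℂ) = c * conj c := by
          rw [Complex.mul_conj, Complex.normSq_eq_norm_sq]
        rw [h7]
        field_simp
      rw [h6, Complex.re_ofReal_mul]
    have h8 : ‖c‖ ^ 2 = 1 + 2 * t * (ν * β).re + t ^ 2 * ‖ν * β‖ ^ 2 := by
      rw [← Complex.normSq_eq_norm_sq, ← Complex.normSq_eq_norm_sq, Complex.normSq_apply,
        Complex.normSq_apply, hc]
      simp only [Complex.add_re, Complex.add_im, Complex.mul_re, Complex.mul_im, Complex.ofReal_re,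
        Complex.ofReal_im, Complex.one_re, Complex.one_im]
      ring
    rw [mul_add (‖c‖ ^ 2), h5, h8, hc, ← hw]
    rw [← Complex.normSq_eq_norm_sq, Complex.normSq_apply]
    simp only [map_add, map_mul, map_one, Complex.add_re, Complex.add_im, Complex.mul_re,
      Complex.mul_im, Complex.ofReal_re, Complex.ofReal_im, Complex.one_re, Complex.one_im,
      Complex.conj_re, Complex.conj_im, Complex.re_ofNat, Complex.im_ofNat]
    ring

/-- transfer of a subgradient, degree `0` -/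
theorem transfer0 {s₁ s₂ : Set ℂ} (hs₁ : IsOpen s₁) (h1 : (0 : ℂ) ∈ s₁) (h2 : (0 : ℂ) ∈ s₂)
    {f₁ f₂ : ℂ → ℝ} (hf₂ : ConvexOn ℝ s₂ f₂) {g ν : ℂ} (h00 : f₂ 0 = f₁ 0)
    (hg : ∀ z ∈ s₁, f₁ 0 + (g * z).re ≤ f₁ z)
    (hrel : ∀ β : ℂ, 1 + ν * β ≠ 0 → β / (1 + ν * β) ∈ s₁ →
      f₂ β = f₁ (β / (1 + ν * β))) {β : ℂ} (hβ : β ∈ s₂) :
    f₂ 0 + (g * β).re ≤ f₂ β := by
  refine ray_le h2 hf₂ hβ (fun t => (g * (β / (1 + ν * (t * β)))).re) ?_ ?_
  · have hc : ContinuousAt (fun t : ℝ => (g * (β / (1 + ν * (t * β)))).re) 0 := by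
      refine Complex.continuous_re.continuousAt.comp (ContinuousAt.mul (by fun_prop) ?_)
      refine ContinuousAt.div (by fun_prop) (by fun_prop) ?_
      simp
    have := (hc.tendsto).mono_left (nhdsWithin_le_nhds (s := Ioi 0))
    simpa using this
  · filter_upwards [ev_ne ν β, ev_mem hs₁ h1 ν β] with t ht1 ht2
    have e1 : (t • β : ℂ) = t * β := by simp
    rw [e1, hrel _ ht1 ht2, h00]
    have h3 := hg _ ht2
    refine le_trans (le_of_eq ?_) h3
    have e2 : g * ((t * β) / (1 + ν * (t * β))) = (t : ℂ) * (g * (β / (1 + ν * (t * β)))) := by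
      ring
    rw [e2, Complex.re_ofReal_mul]

end Pool.Agent.W5h27.MO
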