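import Pool.Agent.H64.G.T9f66d723.W5h27.MO.Fin
import Pool.Agent.H64.G.R_seed8.Helper188.Morrey.Basic

/-! # Matrices -/

set_option autoImplicit false

open Set Filter Topology Matrix
open scoped ComplexConjugate

namespace Pool.Agent.W5h27.MO

abbrev M2 := Matrix (Fin 2) (Fin 2) ℝ

/-- the matrix of `z ↦ a z + b conj z` -/
def mt (a b : ℂ) : M2 := !![a.re + b.re, b.im - a.im; a.im + b.im, a.re - b.re]

theorem mt_det (a b : ℂ) : (mt a b).det = ‖a‖ ^ 2 - ‖b‖ ^ 2 := by
  simp only [mt, det_fin_two_of, sq_norm_re]; ring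

theorem mt_one : mt 1 0 = 1 := by
  ext i j; fin_cases i <;> fin_cases j <;> simp [mt]

theorem mt_mul (c a b : ℂ) : mt c 0 * mt a b = mt (c * a) (c * b) := by
  ext i j
  fin_cases i <;> fin_cases j <;> simp [mt, Matrix.mul_apply, Fin.sum_univ_two] <;> ring

theorem mt_add (a b a' b' : ℂ) : mt a b + mt a' b' = mt (a + a') (b + b') := by
  ext i j
  fin_cases i <;> fin_cases j <;> simp [mt] <;> ring

theorem mt_smul (t : ℝ) (a b : ℂ) : t • mt a b = mt (t * a) (t * b) := by
  ext i j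
  fin_cases i <;> fin_cases j <;> simp [mt] <;> ring

theorem exists_mt (F : M2) : ∃ a b : ℂ, F = mt a b := by
  refine ⟨⟨(F 0 0 + F 1 1) / 2, (F 1 0 - F 0 1) / 2⟩, ⟨(F 0 0 - F 1 1) / 2, (F 1 0 + F 0 1) / 2⟩, ?_⟩
  ext i j
  fin_cases i <;> fin_cases j <;> simp [mt] <;> ring

/-- the squared length of `F u` -/
def qf (F : M2) (u : Fin 2 → ℝ) : ℝ := (F *ᵥ u) ⬝ᵥ (F *ᵥ u)

/-- the vector of a complex number -/
def vc (v : ℂ) : Fin 2 → ℝ := ![v.re, v.im]

theorem qf_mt (a b v : ℂ) : qf (mt a b) (vc (conj v)) = ‖a * conj v + b * v‖ ^ 2 := by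
  simp only [qf, vc, mt, sq_norm_re, dotProduct, Matrix.mulVec, Fin.sum_univ_two]
  simp
  ring

theorem mt_rot {c : ℂ} (hc : ‖c‖ = 1) : mt c 0 ∈ Matrix.specialOrthogonalGroup (Fin 2) ℝ := by
  have h := sq_norm_re c
  rw [hc] at h
  rw [Matrix.mem_specialOrthogonalGroup_iff]
  refine ⟨?_, by rw [mt_det, hc]; simp⟩
  rw [Matrix.mem_orthogonalGroup_iff]
  ext i j
  fin_cases i <;> fin_cases j <;> simp [mt, Matrix.mul_apply, Fin.sum_univ_two] <;> nlinarith

/-- rank-one convexity, local form on a set of matrices -/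
def Seg (W : M2 → ℝ) : Prop := ∀ F H : M2, H.det = 0 → ∀ t : ℝ, 0 ≤ t → t ≤ 1 →
  W (F + t • H) ≤ (1 - t) * W F + t * W (F + H)

def SegP (W : M2 → ℝ) : Prop := ∀ F H : M2, H.det = 0 → 0 < F.det → 0 < (F + H).det →
  ∀ t : ℝ, 0 ≤ t → t ≤ 1 → W (F + t • H) ≤ (1 - t) * W F + t * W (F + H)

/-- invariance under rotations on the left and homogeneity of degree two -/
def Cf2 (W : M2 → ℝ) : Prop := ∀ (c : ℂ) (F : M2), c ≠ 0 → W (mt c 0 * F) = ‖c‖ ^ 2 * W F

def Cf2P (W : M2 → ℝ) : Prop := ∀ (c : ℂ) (F : M2), c ≠ 0 → 0 < F.det →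
  W (mt c 0 * F) = ‖c‖ ^ 2 * W F

def Cf0P (W : M2 → ℝ) : Prop := ∀ (c : ℂ) (F : M2), c ≠ 0 → 0 < F.det →
  W (mt c 0 * F) = W F

theorem conv_chart {W : M2 → ℝ} (hW : Seg W) {κ : ℂ} (hκ : ‖κ‖ = 1) :
    ConvexOn ℝ univ (fun β : ℂ => W (mt (1 - κ * β) β)) := by
  refine ⟨convex_univ, fun x _ y _ s t hs ht hst => ?_⟩
  have h := hW (mt (1 - κ * x) x) (mt (-(κ * (y - x))) (y - x)) (by
    rw [mt_det, norm_neg, norm_mul, hκ, one_mul, sub_self]) t ht (by linarith)
  rw [mt_smul, mt_add, mt_add] at h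
  have e0 : (s : ℂ) = 1 - t := by
    have : s = 1 - t := by linarith
    rw [this]; push_cast; ring
  have e1 : 1 - κ * x + t * -(κ * (y - x)) = 1 - κ * (s • x + t • y) := by
    simp only [Complex.real_smul, e0]; ring
  have e2 : x + t * (y - x) = s • x + t • y := by
    simp only [Complex.real_smul, e0]; ring
  have e3 : 1 - κ * x + -(κ * (y - x)) = 1 - κ * y := by ring
  have e4 : x + (y - x) = y := by ring
  rw [e1, e2, e3, e4] at h
  simp only [smul_eq_mul]
  have : s = 1 - t := by linarith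
  rw [this] at h ⊢
  exact h

theorem det_chart (κ β : ℂ) (hκ : ‖κ‖ = 1) :
    (mt (1 - κ * β) β).det = 1 - 2 * (κ * β).re := by
  have h1 : κ.re ^ 2 + κ.im ^ 2 = 1 := by
    rw [← sq_norm_re, hκ]; norm_num
  rw [mt_det]
  simp only [sq_norm_re, Complex.sub_re, Complex.sub_im, Complex.mul_re, Complex.mul_im,
    Complex.one_re, Complex.one_im]
  linear_combination (β.re ^ 2 + β.im ^ 2) * h1

theorem conv_chartP {W : M2 → ℝ} (hW : SegP W) {κ : ℂ} (hκ : ‖κ‖ = 1) :
    ConvexOn ℝ (Hp κ) (fun β : ℂ => W (mt (1 - κ * β) β)) := by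
  have hc : Convex ℝ (Hp κ) := by
    intro x hx y hy s t hs ht hst
    simp only [Hp, mem_ofPred_eq] at hx hy ⊢
    have e : κ * (s • x + t • y) = (s : ℂ) * (κ * x) + (t : ℂ) * (κ * y) := by
      simp only [Complex.real_smul]; ring
    rw [e, Complex.add_re, Complex.re_ofReal_mul, Complex.re_ofReal_mul]
    rcases hs.eq_or_lt with h | h
    · have : t = 1 := by linarith
      rw [← h, this]; linarith
    · have h1 : s * (κ * x).re < s * (1 / 2) := mul_lt_mul_of_pos_left hx h
      have h2 : t * (κ * y).re ≤ t * (1 / 2) := mul_le_mul_of_nonneg_left hy.le ht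
      have : s = 1 - t := by linarith
      subst this
      linarith
  refine ⟨hc, fun x hx y hy s t hs ht hst => ?_⟩
  have hdx : 0 < (mt (1 - κ * x) x).det := by
    rw [det_chart κ x hκ]; have : (κ * x).re < 1 / 2 := hx; linarith
  have hdy : 0 < (mt (1 - κ * y) y).det := by
    rw [det_chart κ y hκ]; have : (κ * y).re < 1 / 2 := hy; linarith
  have e3 : 1 - κ * x + -(κ * (y - x)) = 1 - κ * y := by ring
  have e4 : x + (y - x) = y := by ring
  have h := hW (mt (1 - κ * x) x) (mt (-(κ * (y - x))) (y - x)) (by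
    rw [mt_det, norm_neg, norm_mul, hκ, one_mul, sub_self]) hdx (by rwa [mt_add, e3, e4])
    t ht (by linarith)
  rw [mt_smul, mt_add, mt_add] at h
  have e0 : (s : ℂ) = 1 - t := by
    have : s = 1 - t := by linarith
    rw [this]; push_cast; ring
  have e1 : 1 - κ * x + t * -(κ * (y - x)) = 1 - κ * (s • x + t • y) := by
    simp only [Complex.real_smul, e0]; ring
  have e2 : x + t * (y - x) = s • x + t • y := by
    simp only [Complex.real_smul, e0]; ring
  rw [e1, e2, e3, e4] at h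
  simp only [smul_eq_mul]
  have : s = 1 - t := by linarith
  rw [this] at h ⊢
  exact h

theorem qf_nonneg (F : M2) (u : Fin 2 → ℝ) : 0 ≤ qf F u := by
  unfold qf
  simp only [dotProduct, Fin.sum_univ_two]
  nlinarith [sq_nonneg ((F *ᵥ u) 0), sq_nonneg ((F *ᵥ u) 1)]

theorem continuous_qf (u : Fin 2 → ℝ) : Continuous (fun F : M2 => qf F u) := by
  unfold qf
  fun_prop

/-- the support at the identity, on all matrices -/
theorem one2 {W : M2 → ℝ} (hW : Seg W) (hc : Continuous W) (hf : Cf2 W) :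
    ∃ (α : ℝ) (u : Fin 2 → ℝ), W 1 = α * (1 : M2).det + qf 1 u ∧
      ∀ F : M2, α * F.det + qf F u ≤ W F := by
  obtain ⟨α, v, κ, hκ, h1, h2⟩ := sup2 (V := fun a b => W (mt a b)) (S := fun _ => univ)
    (fun _ => isOpen_univ) (fun _ => mem_univ _) (fun κ hκ => conv_chart hW hκ)
    (fun c κ β hc0 _ _ => by
      have := hf c (mt (1 - κ * β) β) hc0
      rwa [mt_mul] at this)
  refine ⟨α, vc (conj v), ?_, fun F => ?_⟩
  · rw [← mt_one, qf_mt, mt_det, h1]
    simp
  · obtain ⟨a, b, rfl⟩ := exists_mt F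
    have key : ∀ a b : ℂ, a + κ * b ≠ 0 →
        α * (mt a b).det + qf (mt a b) (vc (conj v)) ≤ W (mt a b) := by
      intro a b hab
      rw [qf_mt, mt_det]
      exact h2 a b hab (mem_univ _)
    by_cases hab : a + κ * b = 0
    · -- approximate
      have hcm : Continuous (fun t : ℝ => mt (a + t) b) := by
        have e : (fun t : ℝ => mt (a + t) b) = fun t : ℝ => mt a b + t • mt 1 0 := by
          funext t
          rw [mt_smul, mt_add]
          simp
        rw [e]
        fun_prop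
      have hl : Tendsto (fun t : ℝ => α * (mt (a + t) b).det + qf (mt (a + t) b) (vc (conj v)))
          (𝓝[>] 0) (𝓝 (α * (mt a b).det + qf (mt a b) (vc (conj v)))) := by
        have h3 : Continuous (fun t : ℝ => α * (mt (a + t) b).det
            + qf (mt (a + t) b) (vc (conj v))) := by
          have := (continuous_qf (vc (conj v))).comp hcm
          have h4 : Continuous (fun t : ℝ => (mt (a + t) b).det) := hcm.matrix_det
          exact (continuous_const.mul h4).add this
        have := (h3.tendsto 0).mono_left (nhdsWithin_le_nhds (s := Ioi 0))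
        simpa using this
      have hr : Tendsto (fun t : ℝ => W (mt (a + t) b)) (𝓝[>] 0) (𝓝 (W (mt a b))) := by
        have := ((hc.comp hcm).tendsto 0).mono_left (nhdsWithin_le_nhds (s := Ioi 0))
        simpa [Function.comp_def] using this
      refine le_of_tendsto_of_tendsto hl hr ?_
      filter_upwards [self_mem_nhdsWithin] with t ht
      have ht' : (0 : ℝ) < t := ht
      refine key _ _ ?_
      have e : a + t + κ * b = t := by linear_combination hab
      rw [e]
      exact_mod_cast ht'.ne'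
    · exact key a b hab

/-- the support at the identity, on matrices with positive determinant -/
theorem one2P {W : M2 → ℝ} (hW : SegP W) (hf : Cf2P W) :
    ∃ (α : ℝ) (u : Fin 2 → ℝ), W 1 = α * (1 : M2).det + qf 1 u ∧
      ∀ F : M2, 0 < F.det → α * F.det + qf F u ≤ W F := by
  obtain ⟨α, v, κ, hκ, h1, h2⟩ := sup2 (V := fun a b => W (mt a b)) (S := Hp)
    Hp_open Hp_zero (fun κ hκ => conv_chartP hW hκ)
    (fun c κ β hc0 hκ hβ => by
      have := hf c (mt (1 - κ * β) β) hc0 (by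
        rw [det_chart κ β hκ]; have : (κ * β).re < 1 / 2 := hβ; linarith)
      rwa [mt_mul] at this)
  refine ⟨α, vc (conj v), ?_, fun F hF => ?_⟩
  · rw [← mt_one, qf_mt, mt_det, h1]
    simp
  · obtain ⟨a, b, rfl⟩ := exists_mt F
    rw [mt_det] at hF
    have hab : ‖b‖ < ‖a‖ := by
      have := norm_nonneg a
      have := norm_nonneg b
      nlinarith
    have hc := ne_of_lt hκ hab
    rw [qf_mt, mt_det]
    exact h2 a b hc (mem_Hp hκ hab hc)

theorem one0P {W : M2 → ℝ} (hW : SegP W) (hf : Cf0P W) :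
    ∃ (α : ℝ) (u : Fin 2 → ℝ), W 1 = α + qf 1 u / (1 : M2).det ∧
      ∀ F : M2, 0 < F.det → α + qf F u / F.det ≤ W F := by
  obtain ⟨α, v, h1, h2⟩ := sup0 (V := fun a b => W (mt a b))
    (fun κ hκ => conv_chartP hW hκ)
    (fun c κ β hc0 hκ hβ => by
      have := hf c (mt (1 - κ * β) β) hc0 (by
        rw [det_chart κ β hκ]; have : (κ * β).re < 1 / 2 := hβ; linarith)
      rwa [mt_mul] at this)
  refine ⟨α, vc (conj v), ?_, fun F hF => ?_⟩
  · rw [← mt_one, qf_mt, mt_det, h1]
    simp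
  · obtain ⟨a, b, rfl⟩ := exists_mt F
    rw [mt_det] at hF
    have hab : ‖b‖ < ‖a‖ := by
      have := norm_nonneg a
      have := norm_nonneg b
      nlinarith
    rw [qf_mt, mt_det]
    exact h2 a b hab

end Pool.Agent.W5h27.MO
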