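import Pool.Agent.H64.G.T9f66d723.W5h27.MO.Base
import Pool.Agent.H64.G.R_seed8.Helper188.Morrey.Transport
import Pool.Agent.H64.G.R_seed8.TH620.J57

/-! # The Morrey inequality from null Lagrangian supports -/

set_option autoImplicit false

open Set Filter Topology Matrix MeasureTheory
open scoped ComplexConjugate NNReal ENNReal
open Pool.Agent.Helper188.Morrey (grad grad_apply measurable_grad grad_bound grad_off integral_grad
  meas_comp integrable_comp integral_lin)

namespace Pool.Agent.W5h27.MO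

variable {ϑ : (Fin 2 → ℝ) → (Fin 2 → ℝ)} {Ω : Set (Fin 2 → ℝ)}

theorem grad_det (x : Fin 2 → ℝ) : (grad ϑ x).det = (fderiv ℝ ϑ x).det := by
  unfold grad
  rw [LinearMap.det_toMatrix']

/-- the determinant is a null Lagrangian -/
theorem integral_det {K : ℝ≥0} (hK : LipschitzWith K ϑ) (hΩ : IsOpen Ω)
    (hb : Bornology.IsBounded Ω) (h0 : ∀ x, x ∉ Ω → ϑ x = 0) :
    ∫ x in Ω, (grad ϑ x).det = 0 := by
  obtain ⟨R, hR⟩ := hb.subset_closedBall (0 : Fin 2 → ℝ)
  have h1 := (Pool.Agent.TH620.J57.int_det_zero (n := 2) (by norm_num) hK (R := R)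
    (fun x hx => h0 x (fun h => hx (hR h)))).2
  rw [← h1]
  simp only [← grad_det]
  refine setIntegral_eq_integral_of_ae_compl_eq_zero ?_
  have := grad_off hK hΩ h0
  rw [ae_restrict_iff' hΩ.measurableSet.compl] at this
  filter_upwards [this] with x hx hx'
  rw [hx hx']
  simp

/-- the cofactor pairing -/
def cf (F₀ : M2) : M2 →ₗ[ℝ] ℝ where
  toFun G := F₀ 0 0 * G 1 1 + F₀ 1 1 * G 0 0 - F₀ 0 1 * G 1 0 - F₀ 1 0 * G 0 1
  map_add' F G := by simp only [Matrix.add_apply]; ring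
  map_smul' t F := by simp only [Matrix.smul_apply, smul_eq_mul, RingHom.id_apply]; ring

theorem det_add_eq (F₀ G : M2) : (F₀ + G).det = F₀.det + cf F₀ G + G.det := by
  simp only [det_fin_two, cf, Matrix.add_apply, LinearMap.coe_mk, AddHom.coe_mk]
  ring

/-- integral of a null Lagrangian -/
theorem integral_null {K : ℝ≥0} (hK : LipschitzWith K ϑ) (hΩ : IsOpen Ω)
    (hb : Bornology.IsBounded Ω) (h0 : ∀ x, x ∉ Ω → ϑ x = 0) (F₀ : M2) (A γ : ℝ)
    (l : M2 →ₗ[ℝ] ℝ) :
    Integrable (fun x => A + l (F₀ + grad ϑ x) + γ * (F₀ + grad ϑ x).det) (volume.restrict Ω) ∧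
    ∫ x in Ω, (A + l (F₀ + grad ϑ x) + γ * (F₀ + grad ϑ x).det)
      = (A + l F₀ + γ * F₀.det) * (volume Ω).toReal := by
  have hlc : Continuous l := LinearMap.continuous_of_finiteDimensional l
  have : IsFiniteMeasure (volume.restrict Ω) := ⟨by
    rw [Measure.restrict_apply_univ]; exact hb.measure_lt_top⟩
  refine ⟨integrable_comp hK hb (φ := fun G => A + l (F₀ + G) + γ * (F₀ + G).det)
    (by fun_prop), ?_⟩
  have e : ∀ x, A + l (F₀ + grad ϑ x) + γ * (F₀ + grad ϑ x).det
      = (A + l F₀ + γ * F₀.det) + ((l + γ • cf F₀) (grad ϑ x) + γ * (grad ϑ x).det) := by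
    intro x
    rw [map_add, det_add_eq, LinearMap.add_apply, LinearMap.smul_apply, smul_eq_mul]
    ring
  simp only [e]
  have i1 : Integrable (fun x => (l + γ • cf F₀) (grad ϑ x)) (volume.restrict Ω) :=
    integrable_comp hK hb (φ := fun G => (l + γ • cf F₀) G)
      (LinearMap.continuous_of_finiteDimensional _)
  have i2 : Integrable (fun x => γ * (grad ϑ x).det) (volume.restrict Ω) :=
    integrable_comp hK hb (φ := fun G => γ * G.det) (by fun_prop)
  have i12 : Integrable (fun x => (l + γ • cf F₀) (grad ϑ x) + γ * (grad ϑ x).det)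
    (volume.restrict Ω) := i1.add i2
  rw [integral_add (integrable_const _) i12, integral_add i1 i2,
    integral_lin hK hΩ hb h0, integral_const_mul, integral_det hK hΩ hb h0, integral_const]
  simp [Measure.real, mul_comm]

/-- Morrey's inequality on all matrices -/
theorem morrey_of_nl {W : M2 → ℝ} (hc : Continuous W) {F₀ : M2} (h : NlAt W univ F₀)
    (hΩ : IsOpen Ω) (hb : Bornology.IsBounded Ω) (hϑ : ∃ K, LipschitzWith K ϑ)
    (h0 : ∀ x, x ∉ Ω → ϑ x = 0) :
    W F₀ * (volume Ω).toReal ≤ ∫ x in Ω, W (F₀ + grad ϑ x) := by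
  obtain ⟨K, hK⟩ := hϑ
  obtain ⟨A, γ, l, h1, h2⟩ := h
  obtain ⟨i1, i2⟩ := integral_null hK hΩ hb h0 F₀ A γ l
  rw [h1, ← i2]
  refine integral_mono i1 (integrable_comp hK hb (φ := fun G => W (F₀ + G)) (by fun_prop)) ?_
  intro x
  exact h2 _ (mem_univ _)

/-! ### matrices with positive determinant -/

/-- the matrix with given entries -/
def mq (q : ℝ × ℝ × ℝ × ℝ) : M2 := !![q.1, q.2.1; q.2.2.1, q.2.2.2]

/-- the function extended by zero, in coordinates -/
noncomputable def ex (W : M2 → ℝ) (q : ℝ × ℝ × ℝ × ℝ) : ℝ :=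
  open Classical in
  if 0 < (mq q).det then W (mq q) else 0

theorem meas_ex {W : M2 → ℝ} (h : ∀ F₀ : M2, 0 < F₀.det → NlAt W (Ioi 0) F₀) :
    Measurable (ex W) := by
  have hmc : Continuous mq := by
    refine continuous_matrix fun i j => ?_
    fin_cases i <;> fin_cases j <;> simp [mq] <;> fun_prop
  have hU : IsOpen {q | 0 < (mq q).det} := isOpen_lt continuous_const (by fun_prop)
  refine measurable_of_Ioi fun c => ?_
  have hV : IsOpen {q | 0 < (mq q).det ∧ c < W (mq q)} := by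
    rw [isOpen_iff_mem_nhds]
    rintro q ⟨hq1, hq2⟩
    obtain ⟨A, γ, l, h1, h2⟩ := h (mq q) hq1
    have hlc : Continuous l := LinearMap.continuous_of_finiteDimensional l
    have ho : IsOpen {q' | c < A + l (mq q') + γ * (mq q').det} :=
      isOpen_lt continuous_const (by fun_prop)
    have hq3 : q ∈ {q' | c < A + l (mq q') + γ * (mq q').det} := by
      show c < A + l (mq q) + γ * (mq q).det
      rw [← h1]; exact hq2
    filter_upwards [hU.mem_nhds hq1, ho.mem_nhds hq3] with q' g1 g2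
    exact ⟨g1, lt_of_lt_of_le g2 (h2 _ g1)⟩
  by_cases hc : c < 0
  · have e : ex W ⁻¹' Ioi c = {q | 0 < (mq q).det ∧ c < W (mq q)} ∪ {q | 0 < (mq q).det}ᶜ := by
      ext q
      simp only [mem_preimage, mem_Ioi, ex, mem_union, mem_compl_iff, mem_ofPred_eq]
      by_cases hq : 0 < (mq q).det
      · rw [if_pos hq]; tauto
      · rw [if_neg hq]; tauto
    rw [e]
    exact hV.measurableSet.union hU.measurableSet.compl
  · have e : ex W ⁻¹' Ioi c = {q | 0 < (mq q).det ∧ c < W (mq q)} := by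
      ext q
      simp only [mem_preimage, mem_Ioi, ex, mem_ofPred_eq]
      by_cases hq : 0 < (mq q).det
      · rw [if_pos hq]; tauto
      · rw [if_neg hq]; tauto
    rw [e]
    exact hV.measurableSet

/-- Morrey's inequality on the matrices with positive determinant -/
theorem morrey_pos {W : M2 → ℝ} (h : ∀ F₀ : M2, 0 < F₀.det → NlAt W (Ioi 0) F₀) {F₀ : M2}
    (hF₀ : 0 < F₀.det) (hΩ : IsOpen Ω) (hb : Bornology.IsBounded Ω)
    (hϑ : ∃ K, LipschitzWith K ϑ) (h0 : ∀ x, x ∉ Ω → ϑ x = 0)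
    (hpos : ∀ᵐ x ∂(volume.restrict Ω), 0 < (F₀ + grad ϑ x).det)
    (hfin : ∫⁻ x in Ω, ENNReal.ofReal (W (F₀ + grad ϑ x)) ≠ ⊤) :
    IntegrableOn (fun x => W (F₀ + grad ϑ x)) Ω ∧
      W F₀ * (volume Ω).toReal ≤ ∫ x in Ω, W (F₀ + grad ϑ x) := by
  obtain ⟨K, hK⟩ := hϑ
  obtain ⟨A, γ, l, h1, h2⟩ := h F₀ hF₀
  obtain ⟨i1, i2⟩ := integral_null hK hΩ hb h0 F₀ A γ l
  have hle : ∀ᵐ x ∂(volume.restrict Ω),
      A + l (F₀ + grad ϑ x) + γ * (F₀ + grad ϑ x).det ≤ W (F₀ + grad ϑ x) := by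
    filter_upwards [hpos] with x hx
    exact h2 _ hx
  have hmeas : AEStronglyMeasurable (fun x => W (F₀ + grad ϑ x)) (volume.restrict Ω) := by
    have g1 : Measurable (fun x => ((F₀ 0 0 + grad ϑ x 0 0, F₀ 0 1 + grad ϑ x 0 1,
        F₀ 1 0 + grad ϑ x 1 0, F₀ 1 1 + grad ϑ x 1 1) : ℝ × ℝ × ℝ × ℝ)) :=
      ((measurable_grad 0 0).const_add _).prodMk (((measurable_grad 0 1).const_add _).prodMk
        (((measurable_grad 1 0).const_add _).prodMk ((measurable_grad 1 1).const_add _)))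
    have g2 := (meas_ex h).comp g1
    refine ⟨_, g2.stronglyMeasurable, ?_⟩
    filter_upwards [hpos] with x hx
    have e : (!![F₀ 0 0 + grad ϑ x 0 0, F₀ 0 1 + grad ϑ x 0 1; F₀ 1 0 + grad ϑ x 1 0,
        F₀ 1 1 + grad ϑ x 1 1] : M2) = F₀ + grad ϑ x := by
      ext i j; fin_cases i <;> fin_cases j <;> rfl
    simp only [Function.comp, ex, mq, e]
    rw [if_pos hx]
  have hint : Integrable (fun x => W (F₀ + grad ϑ x)) (volume.restrict Ω) := by
    set n : (Fin 2 → ℝ) → ℝ := fun x => A + l (F₀ + grad ϑ x) + γ * (F₀ + grad ϑ x).det with hn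
    have p1 : Integrable (fun x => max (W (F₀ + grad ϑ x)) 0) (volume.restrict Ω) := by
      refine ⟨hmeas.sup aestronglyMeasurable_const, ?_⟩
      have hnn0 : 0 ≤ᵐ[volume.restrict Ω] fun x => max (W (F₀ + grad ϑ x)) 0 :=
        Eventually.of_forall fun x => le_max_right _ _
      rw [hasFiniteIntegral_iff_ofReal hnn0]
      have e : (fun x => ENNReal.ofReal (max (W (F₀ + grad ϑ x)) 0))
          = fun x => ENNReal.ofReal (W (F₀ + grad ϑ x)) := by
        funext x
        rcases le_total 0 (W (F₀ + grad ϑ x)) with hx | hx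
        · rw [max_eq_left hx]
        · rw [max_eq_right hx, ENNReal.ofReal_of_nonpos hx, ENNReal.ofReal_zero]
      rw [e]
      exact hfin.lt_top
    refine (p1.add i1.norm).mono hmeas ?_
    filter_upwards [hle] with x hx
    simp only [Pi.add_apply]
    have hnn : 0 ≤ max (W (F₀ + grad ϑ x)) 0 + ‖n x‖ :=
      add_nonneg (le_max_right _ _) (norm_nonneg _)
    rw [Real.norm_eq_abs, Real.norm_of_nonneg hnn, abs_le, Real.norm_eq_abs]
    constructor
    · have := neg_abs_le (n x)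
      have h5 : (0 : ℝ) ≤ max (W (F₀ + grad ϑ x)) 0 := le_max_right _ _
      linarith
    · have := abs_nonneg (n x)
      have h5 : W (F₀ + grad ϑ x) ≤ max (W (F₀ + grad ϑ x)) 0 := le_max_left _ _
      linarith
  refine ⟨hint, ?_⟩
  rw [h1, ← i2]
  exact integral_mono_ae i1 hint hle

end Pool.Agent.W5h27.MO
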